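import Pool.Agent.Helper66.TU.Defs

/-!
# TU project, module EVEN: scaling
-/

set_option autoImplicit false

namespace GWA

section EVEN

variable {K : Type} [NormedField K] [Algebra GaussianInt K] [NeZero (2 : K)] [DecidableEq K]
  {π : GaussianInt} {A : (d : Kˣ) → E (d : K) → E (d : K) → Prop}

omit [Algebra GaussianInt K] in
private theorem tr_tr_id {s : K} (hs : s ≠ 0) {d e : K} (hd : d ≠ 0) (he : e ≠ 0)
    (h : RingHom.id K d = e * s⁻¹ ^ 2) (h' : RingHom.id K e = d * s ^ 2) (P : E d) :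
    tr (RingHom.id K) hs hd h' (tr (RingHom.id K) (inv_ne_zero hs) he h P) = P := by
  by_cases hP : P = 0
  · rw [hP, map_zero, map_zero]
  · apply pt_ext (tr_ne _ _ _ _ (tr_ne _ _ _ _ hP)) hP
    · rw [xc_tr, xc_tr, RingHom.id_apply, RingHom.id_apply]
      field_simp
    · rw [yc_tr, yc_tr, RingHom.id_apply, RingHom.id_apply]
      field_simp

theorem MSt.univ_even (hA : MSt π A) (h : LHU K π)
    (hunit : ∀ (d : Kˣ), ‖(d : K)‖ = 1 → ∀ P Q : E (d : K), A d P Q) (d : Kˣ) (m : ℤ)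
    (hd : ‖(d : K)‖ = ‖algebraMap GaussianInt K π‖ ^ (2 * m)) (P Q : E (d : K)) : A d P Q := by
  have hπ := h.pi_ne
  set s : K := algebraMap GaussianInt K π ^ (-m) with hsdef
  have hs : s ≠ 0 := zpow_ne_zero _ hπ
  have he0 : (d : K) * s ^ 2 ≠ 0 := mul_ne_zero d.ne_zero (pow_ne_zero _ hs)
  set e : Kˣ := Units.mk0 ((d : K) * s ^ 2) he0 with hedef
  have hev : (e : K) = (d : K) * s ^ 2 := rfl
  have hen : ‖(e : K)‖ = 1 := by
    rw [hev, norm_mul, norm_pow, hsdef, norm_zpow, hd, ← zpow_natCast, ← zpow_mul,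
      ← zpow_add₀ h.norm_pi_pos.ne']
    have : 2 * m + -m * ((2 : ℕ) : ℤ) = 0 := by push_cast; ring
    rw [this, zpow_zero]
  have h1 : RingHom.id K (e : K) = (d : K) * s ^ 2 := hev
  have h2 : RingHom.id K (d : K) = (e : K) * s⁻¹ ^ 2 := by
    rw [RingHom.id_apply, hev, inv_pow, mul_assoc, mul_inv_cancel₀ (pow_ne_zero _ hs), mul_one]
  have key := hA.scale e d s hs h1 (tr (RingHom.id K) (inv_ne_zero hs) e.ne_zero h2 P)
    (tr (RingHom.id K) (inv_ne_zero hs) e.ne_zero h2 Q) (hunit e hen _ _)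
  rwa [tr_tr_id hs d.ne_zero e.ne_zero h2 h1, tr_tr_id hs d.ne_zero e.ne_zero h2 h1] at key

end EVEN

end GWA
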